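import Mathlib

namespace Pool.Agent.Results.MP_e01960_al.No

open MvPolynomial Equiv

/-- the ideal generated by the orbit of `f` under permutations of the variables -/
noncomputable def symIdeal {k : Type} [Field k] {d : ℕ} (f : MvPolynomial (Fin d) k) :
    Ideal (MvPolynomial (Fin d) k) :=
  Ideal.span (Set.range fun σ : Perm (Fin d) => rename σ f)

/-- principal symmetric ideals -/
def IsPsi {k : Type} [Field k] {d : ℕ} (I : Ideal (MvPolynomial (Fin d) k)) : Prop :=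
  ∃ (f : MvPolynomial (Fin d) k) (n : ℕ), f.IsHomogeneous n ∧ I = symIdeal f

section universal
variable {R : Type} [CommRing R]

def T (u : Fin 6 → R) : R := ∑ i, u i
def q (u : Fin 6 → R) : R := u 0 * u 1 + u 0 * u 2 + u 0 * u 3 + u 0 * u 4 + u 0 * u 5 + u 1 * u 2 + u 1 * u 3 + u 1 * u 4 + u 1 * u 5 + u 2 * u 3 + u 2 * u 4 + u 2 * u 5 + u 3 * u 4 + u 3 * u 5 + u 4 * u 5
def b (u w : Fin 6 → R) : R := T u * T w - ∑ i, u i * w i
def yy (u : Fin 6 → R) (i : Fin 6) : R := u i ^ 2 + T u * u i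
def ww (u : Fin 6 → R) (i : Fin 6) : R := yy u i ^ 2 + q (yy u)
def F (u : Fin 6 → R) (i : Fin 6) : R := b u (ww u) * u i + q u * ww u i

lemma q_comb (u w : Fin 6 → R) (s t : R) :
    q (fun i => s * u i + t * w i) = s ^ 2 * q u + s * t * b u w + t ^ 2 * q w := by
  simp only [q, b, T, Fin.sum_univ_six]; ring

lemma q_F [CharP R 2] (u : Fin 6 → R) : q (F u) = 0 := by
  have h2 : (2 : R) = 0 := CharP.cast_eq_zero R 2
  have e1 : ∀ y : Fin 6 → R, q (fun i => y i ^ 2) = q y ^ 2 := by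
    intro y
    have : frobenius R 2 (q y) = q (fun i => frobenius R 2 (y i)) := by
      simp only [q, map_add, map_mul]
    simpa only [frobenius_def] using this.symm
  have e2 : ∀ y : Fin 6 → R, T (fun i => y i ^ 2) = T y ^ 2 := by
    intro y
    have : frobenius R 2 (T y) = T (fun i => frobenius R 2 (y i)) := by
      simp only [T, map_sum]
    simpa only [frobenius_def] using this.symm
  have e3 : T (yy u) = 0 := by
    have : T (yy u) = T (fun i => u i ^ 2) + T u * T u := by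
      simp only [T, yy, Fin.sum_univ_six]; ring
    rw [this, e2]
    linear_combination (T u ^ 2) * h2
  have e4 : ∀ (z : Fin 6 → R) (c : R), q (fun i => z i + c) = q z + 5 * c * T z + 15 * c ^ 2 := by
    intro z c
    simp only [q, T, Fin.sum_univ_six]; ring
  have e5 : q (ww u) = 0 := by
    have := e4 (fun i => yy u i ^ 2) (q (yy u))
    rw [e1, e2, e3] at this
    refine Eq.trans this ?_
    linear_combination (8 * q (yy u) ^ 2) * h2
  have := q_comb u (ww u) (b u (ww u)) (q u)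
  refine Eq.trans this ?_
  rw [e5]
  linear_combination (b u (ww u) ^ 2 * q u) * h2

lemma map_F {S : Type} [CommRing S] {Φ : Type} [FunLike Φ R S] [RingHomClass Φ R S] (φ : Φ)
    (u : Fin 6 → R) (i : Fin 6) : φ (F u i) = F (fun j => φ (u j)) i := by
  simp only [F, b, ww, yy, q, T, map_add, map_mul, map_sub, map_sum, map_pow]

def p : Fin 5 → Fin 5 → Fin 6 → Fin 6 :=
  ![![![0, 1, 2, 3, 4, 5], ![2, 4, 0, 5, 1, 3], ![3, 5, 4, 0, 2, 1], ![5, 2, 1, 4, 3, 0], ![4, 3, 5, 1, 0, 2]], ![![2, 4, 0, 5, 1, 3], ![0, 1, 2, 3, 4, 5], ![1, 0, 5, 4, 3, 2], ![4, 5, 3, 2, 0, 1], ![3, 2, 1, 0, 5, 4]], ![![3, 5, 4, 0, 2, 1], ![1, 0, 5, 4, 3, 2], ![0, 1, 2, 3, 4, 5], ![2, 3, 0, 1, 5, 4], ![5, 4, 3, 2, 1, 0]], ![![5, 2, 1, 4, 3, 0], ![4, 5, 3, 2, 0, 1], ![2, 3, 0, 1, 5, 4], ![0, 1, 2, 3, 4, 5], ![1, 0, 4, 5, 2, 3]], ![![4, 3, 5, 1, 0, 2], ![3, 2, 1, 0, 5, 4], ![5, 4, 3, 2, 1, 0], ![1, 0, 4, 5, 2, 3], ![0, 1, 2, 3, 4, 5]]]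

lemma p_inv : ∀ a c i, p a c (p a c i) = i := by decide

def pe (a c : Fin 5) : Perm (Fin 6) := Function.Involutive.toPerm (p a c) (p_inv a c)

lemma q_p (a c : Fin 5) (u : Fin 6 → R) : q (fun i => u (p a c i)) = q u := by
  fin_cases a <;> fin_cases c <;> simp [q, p] <;> ring

lemma T_p (a c : Fin 5) (u : Fin 6 → R) : T (fun i => u (p a c i)) = T u :=
  Equiv.sum_comp (pe a c) u

lemma F_p (a c : Fin 5) (u : Fin 6 → R) (i : Fin 6) :
    F (fun i => u (p a c i)) i = F u (p a c i) := by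
  have e1 : yy (fun i => u (p a c i)) = fun i => yy u (p a c i) := by
    funext i; simp only [yy, T_p]
  have e2 : ww (fun i => u (p a c i)) = fun i => ww u (p a c i) := by
    funext i; simp only [ww, e1, q_p]
  have e3 : b (fun i => u (p a c i)) (fun i => ww u (p a c i)) = b u (ww u) := by
    simp only [b, T_p]
    congr 1
    exact Equiv.sum_comp (pe a c) (fun i => u i * ww u i)
  simp only [F, e2, e3, q_p]

end universal

abbrev P := MvPolynomial (Fin 5) (ZMod 2)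

lemma hom_T {u : Fin 6 → P} {n : ℕ} (h : ∀ i, (u i).IsHomogeneous n) : (T u).IsHomogeneous n :=
  IsHomogeneous.sum _ _ _ (fun i _ => h i)

lemma hom_q {u : Fin 6 → P} {n : ℕ} (h : ∀ i, (u i).IsHomogeneous n) :
    (q u).IsHomogeneous (n + n) := by
  unfold q
  repeat' apply IsHomogeneous.add
  all_goals exact (h _).mul (h _)

lemma hom_F {u : Fin 6 → P} (h : ∀ i, (u i).IsHomogeneous 10) (i : Fin 6) :
    (F u i).IsHomogeneous 60 := by
  have h1 : ∀ i, (yy u i).IsHomogeneous 20 := fun i =>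
    IsHomogeneous.add ((h i).pow 2) ((hom_T h).mul (h i))
  have h2 : ∀ i, (ww u i).IsHomogeneous 40 := fun i =>
    IsHomogeneous.add ((h1 i).pow 2) (hom_q h1)
  have h3 : (b u (ww u)).IsHomogeneous 50 :=
    IsHomogeneous.sub ((hom_T h).mul (hom_T h2))
      (IsHomogeneous.sum _ _ _ (fun i _ => (h i).mul (h2 i)))
  exact IsHomogeneous.add (h3.mul (h i)) ((hom_q h).mul (h2 i))

def cls (s : Perm (Fin 5)) : Fin 6 :=
  Fin.ofNat 6 (331631275785566880938797967875791230251312504860382317512905767220190820657791940837700506868831996228866283300345827281110584527690599863935079639858663692973421537110918323813452359005127289991687773976814967720459773005193133730300832638134393976125804978834208425834465545391028964526427388997147349761653860722979857804422897227328112628097984999736829925566281644021877303867872406162187036045169582320061680176510173769414147569383198315260988620800 / 6 ^ (125 * (s 0).val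 + 25 * (s 1).val + 5 * (s 2).val + (s 3).val))

lemma cls_swap : ∀ (a c : Fin 5) (s : Perm (Fin 5)), cls (swap a c * s) = p a c (cls s) := by
  decide +kernel

noncomputable def m : P := X 1 * X 2 ^ 2 * X 3 ^ 3 * X 4 ^ 4

noncomputable def v (i : Fin 6) : P :=
  ∑ s ∈ Finset.univ.filter (fun s : Perm (Fin 5) => cls s = i), rename s m

lemma hom_v (i : Fin 6) : (v i).IsHomogeneous 10 := by
  refine IsHomogeneous.sum _ _ _ (fun s _ => IsHomogeneous.rename_isHomogeneous ?_)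
  exact (((isHomogeneous_X _ 1).mul ((isHomogeneous_X _ 2).pow 2)).mul
    ((isHomogeneous_X _ 3).pow 3)).mul ((isHomogeneous_X _ 4).pow 4)

lemma v_swap (a c : Fin 5) (i : Fin 6) : rename (swap a c) (v i) = v (p a c i) := by
  unfold v
  rw [map_sum]
  refine Finset.sum_equiv (Equiv.mulLeft (swap a c)) ?_ ?_
  · intro s
    simp only [Finset.mem_filter, Finset.mem_univ, true_and, Equiv.coe_mulLeft, cls_swap]
    exact ((pe a c).injective.eq_iff).symm
  · intro s _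
    rw [rename_rename]
    rfl

noncomputable def Y : Fin 6 → P := F v

lemma hom_Y (i : Fin 6) : (Y i).IsHomogeneous 60 := hom_F hom_v i

lemma Y_swap (a c : Fin 5) (i : Fin 6) : rename (swap a c) (Y i) = Y (p a c i) := by
  unfold Y
  rw [map_F, ← F_p]
  simp only [v_swap]

lemma rename_mul (s t : Perm (Fin 5)) (f : P) :
    rename (s * t : Perm (Fin 5)) f = rename s (rename t f) := by
  rw [rename_rename]; rfl

lemma Y_orb (s : Perm (Fin 5)) (i : Fin 6) : ∃ j, rename s (Y i) = Y j := by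
  induction s using Equiv.Perm.swap_induction_on with
  | one => exact ⟨i, by simp⟩
  | swap_mul f x y _ ih =>
    obtain ⟨j, hj⟩ := ih
    exact ⟨_, by rw [rename_mul, hj, Y_swap]⟩

lemma stab (f h : P) (t : Perm (Fin 5)) (hh : h ∈ symIdeal f) : rename t h ∈ symIdeal f := by
  unfold symIdeal at *
  induction hh using Submodule.span_induction with
  | mem x hx =>
    obtain ⟨s, rfl⟩ := hx
    exact Ideal.subset_span ⟨t * s, rename_mul t s f⟩
  | zero => simp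
  | add x y _ _ hx hy => rw [map_add]; exact add_mem hx hy
  | smul r x _ hx => rw [smul_eq_mul, map_mul]; exact Ideal.mul_mem_left _ _ hx

lemma self_mem (f : P) : f ∈ symIdeal f := Ideal.subset_span ⟨1, by simp⟩

noncomputable def I : Ideal P := Ideal.span (Set.range Y)

lemma Y_mem (i : Fin 6) : Y i ∈ I := Ideal.subset_span ⟨i, rfl⟩

lemma I_eq : I = symIdeal (Y 0) := by
  apply le_antisymm
  · rw [I, Ideal.span_le]
    rintro _ ⟨i, rfl⟩
    obtain ⟨a, c, h⟩ : ∃ a c, p a c 0 = i := by revert i; decide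
    rw [← h, ← Y_swap]
    exact stab _ _ _ (self_mem _)
  · rw [symIdeal, Ideal.span_le]
    rintro _ ⟨s, rfl⟩
    obtain ⟨j, hj⟩ := Y_orb s 0
    simp only [hj]
    exact Y_mem j

noncomputable def G (i j : Fin 6) : P := Y i * Y i + Y i * Y j

lemma two_trans : ∀ i j : Fin 6, i ≠ j → ∃ a c a' c' a'' c'' : Fin 5,
    p a c (p a' c' (p a'' c'' 0)) = i ∧ p a c (p a' c' (p a'' c'' 1)) = j := by
  decide +kernel

lemma I_sq : I ^ 2 = symIdeal (G 0 1) := by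
  have h2 : (2 : P) = 0 := CharP.cast_eq_zero P 2
  apply le_antisymm
  · have hs : ∀ a c i j, G i j ∈ symIdeal (G 0 1) →
        G (p a c i) (p a c j) ∈ symIdeal (G 0 1) := by
      intro a c i j h
      have := stab _ _ (swap a c) h
      simpa only [G, map_add, map_mul, Y_swap] using this
    have hG : ∀ i j, i ≠ j → G i j ∈ symIdeal (G 0 1) := by
      intro i j hij
      obtain ⟨a, c, a', c', a'', c'', rfl, rfl⟩ := two_trans i j hij
      exact hs _ _ _ _ (hs _ _ _ _ (hs _ _ _ _ (self_mem _)))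
    have hq : q Y = 0 := q_F v
    have h0 : Y 0 * Y 0 ∈ symIdeal (G 0 1) := by
      have : Y 0 * Y 0 = G 0 1 + G 0 2 + G 0 3 + G 0 4 + G 0 5 + G 1 2 + G 1 3 + G 1 4 + G 1 5 + G 2 3 + G 2 4 + G 2 5 + G 3 4 + G 3 5 + G 4 5 + G 2 4 + G 4 2 := by
        simp only [G]
        unfold q at hq
        linear_combination (-1) * hq - (2 * Y 0 ^ 2 + 2 * Y 1 ^ 2 + 2 * Y 2 ^ 2 + Y 3 ^ 2 +
          Y 4 ^ 2 + Y 2 * Y 4) * h2
      rw [this]
      exact (add_mem (add_mem (add_mem (add_mem (add_mem (add_mem (add_mem (add_mem (add_mem (add_mem (add_mem (add_mem (add_mem (add_mem (add_mem (add_mem (hG 0 1 (by decide)) (hG 0 2 (by decide))) (hG 0 3 (by decide))) (hG 0 4 (by decide))) (hG 0 5 (by decide))) (hG 1 2 (by decide))) (hG 1 3 (by decide))) (hG 1 4 (by decide))) (hG 1 5 (by decide))) (hG 2 3 (by decide))) (hG 2 4 (by decide))) (hG 2 5 (by decide))) (hG 3 4 (by decide))) (hG 3 5 (by decide))) (hG 4 5 (by decide)))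 (hG 2 4 (by decide))) (hG 4 2 (by decide)))
    have h1 : ∀ i, Y i * Y i ∈ symIdeal (G 0 1) := by
      intro i
      by_cases hi : i = 0
      · rw [hi]; exact h0
      · have : Y i * Y i = Y 0 * Y 0 + G 0 i + G i 0 := by
          simp only [G]
          linear_combination (-(Y 0 * Y 0 + Y 0 * Y i)) * h2
        rw [this]
        exact add_mem (add_mem h0 (hG _ _ (Ne.symm hi))) (hG _ _ hi)
    rw [pow_two, I, Ideal.span_mul_span', Ideal.span_le]
    rintro _ ⟨_, ⟨i, rfl⟩, _, ⟨j, rfl⟩, rfl⟩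
    by_cases hij : i = j
    · rw [hij]; exact h1 j
    · have : Y i * Y j = G i j - Y i * Y i := by simp only [G]; ring
      simp only [this]
      exact sub_mem (hG _ _ hij) (h1 i)
  · rw [symIdeal, Ideal.span_le]
    rintro _ ⟨s, rfl⟩
    obtain ⟨j, hj⟩ := Y_orb s 0
    obtain ⟨k, hk⟩ := Y_orb s 1
    simp only [G, map_add, map_mul, hj, hk, pow_two]
    exact add_mem (Ideal.mul_mem_mul (Y_mem _) (Y_mem _)) (Ideal.mul_mem_mul (Y_mem _) (Y_mem _))

abbrev F4 := QuadraticAlgebra (ZMod 2) 1 1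
abbrev F16 := QuadraticAlgebra F4 ⟨0, 1⟩ 1

def pt1 : Fin 5 → F16 := ![⟨⟨0, 0⟩, ⟨1, 0⟩⟩, ⟨⟨0, 1⟩, ⟨1, 0⟩⟩, ⟨⟨0, 1⟩, ⟨0, 1⟩⟩, ⟨⟨0, 0⟩, ⟨0, 1⟩⟩, ⟨⟨1, 0⟩, ⟨0, 1⟩⟩]
def pt2 : Fin 5 → F16 := ![⟨⟨1, 1⟩, ⟨0, 0⟩⟩, ⟨⟨1, 1⟩, ⟨1, 1⟩⟩, ⟨⟨0, 1⟩, ⟨1, 1⟩⟩, ⟨⟨0, 1⟩, ⟨0, 0⟩⟩, ⟨⟨1, 0⟩, ⟨1, 0⟩⟩]
def u1 : Fin 6 → F16 := ![⟨⟨0, 1⟩, ⟨1, 0⟩⟩, ⟨⟨1, 1⟩, ⟨0, 0⟩⟩, ⟨⟨0, 0⟩, ⟨1, 0⟩⟩, ⟨⟨1, 1⟩, ⟨1, 0⟩⟩, ⟨⟨0, 1⟩, ⟨0, 1⟩⟩, ⟨⟨1, 1⟩, ⟨0, 0⟩⟩]
def u2 : Fin 6 → F16 := ![⟨⟨0, 0⟩, ⟨1, 0⟩⟩, ⟨⟨0, 1⟩, ⟨1, 0⟩⟩, ⟨⟨0, 0⟩, ⟨0, 0⟩⟩, ⟨⟨1, 1⟩, ⟨0, 0⟩⟩, ⟨⟨1, 0⟩, ⟨0, 1⟩⟩, ⟨⟨1, 0⟩, ⟨1, 0⟩⟩]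
def y1 : Fin 6 → F16 := ![⟨⟨0, 0⟩, ⟨1, 1⟩⟩, ⟨⟨1, 0⟩, ⟨0, 1⟩⟩, ⟨⟨0, 0⟩, ⟨0, 1⟩⟩, ⟨⟨1, 0⟩, ⟨1, 0⟩⟩, ⟨⟨0, 0⟩, ⟨0, 1⟩⟩, ⟨⟨1, 0⟩, ⟨0, 1⟩⟩]
def y2 : Fin 6 → F16 := ![⟨⟨0, 1⟩, ⟨0, 1⟩⟩, ⟨⟨0, 1⟩, ⟨1, 0⟩⟩, ⟨⟨0, 0⟩, ⟨0, 0⟩⟩, ⟨⟨1, 1⟩, ⟨0, 0⟩⟩, ⟨⟨1, 0⟩, ⟨0, 0⟩⟩, ⟨⟨1, 0⟩, ⟨1, 0⟩⟩]

def ev (x : Fin 5 → F16) (i : Fin 6) : F16 :=
  ∑ s ∈ Finset.univ.filter (fun s : Perm (Fin 5) => cls s = i),
    x (s 1) * (x (s 2) * x (s 2)) * (x (s 3) * x (s 3) * x (s 3)) *
      (x (s 4) * x (s 4) * x (s 4) * x (s 4))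

lemma aeval_v (x : Fin 5 → F16) (i : Fin 6) : aeval x (v i) = ev x i := by
  simp only [v, ev, map_sum, m, map_mul, map_pow, rename_X, aeval_X]
  refine Finset.sum_congr rfl (fun s _ => by ring)

lemma ev1 : ∀ i, ev pt1 i = u1 i := by decide +kernel
lemma ev2 : ∀ i, ev pt2 i = u2 i := by decide +kernel
lemma F1 : ∀ i, F u1 i = y1 i := by decide +kernel
lemma F2 : ∀ i, F u2 i = y2 i := by decide +kernel

lemma ind : ∀ c : Fin 6 → ZMod 2, ∑ i, c i • y1 i = 0 → ∑ i, c i • y2 i = 0 → c = 0 := by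
  decide +kernel

noncomputable def L : (Fin 6 → ZMod 2) →ₗ[ZMod 2] P := Fintype.linearCombination (ZMod 2) Y

lemma L_apply (c : Fin 6 → ZMod 2) : L c = ∑ i, c i • Y i := rfl

lemma L_inj : Function.Injective L := by
  rw [injective_iff_map_eq_zero]
  intro c hc
  apply ind
  · have := congrArg (aeval pt1) hc
    simpa only [L_apply, map_sum, map_smul, Y, map_F, aeval_v, ev1, F1, map_zero] using this
  · have := congrArg (aeval pt2) hc
    simpa only [L_apply, map_sum, map_smul, Y, map_F, aeval_v, ev2, F2, map_zero] using this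

lemma L_swap (a c : Fin 5) (x : Fin 6 → ZMod 2) :
    rename (swap a c) (L x) = L (fun i => x (p a c i)) := by
  simp only [L_apply, map_sum, map_smul, Y_swap]
  rw [← Equiv.sum_comp (pe a c)]
  refine Finset.sum_congr rfl (fun i _ => ?_)
  change x (p a c i) • Y (p a c (p a c i)) = _
  rw [p_inv]

lemma hc_Y (r : P) (i : Fin 6) : homogeneousComponent 60 (r * Y i) = coeff 0 r • Y i := by
  conv_lhs => rw [← sum_homogeneousComponent r, Finset.sum_mul, map_sum]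
  rw [Finset.sum_eq_single 0]
  · rw [homogeneousComponent_zero, C_mul', map_smul, homogeneousComponent_eq_self (hom_Y i)]
  · intro n _ hn
    have : (homogeneousComponent n r * Y i) ∈ homogeneousSubmodule (Fin 5) (ZMod 2) (n + 60) :=
      (homogeneousComponent_isHomogeneous n r).mul (hom_Y i)
    rw [homogeneousComponent_of_mem this, if_neg (by omega)]
  · intro h
    simp at h

lemma hc_I (h : P) (hh : h ∈ I) : ∃ c : Fin 6 → ZMod 2, ∀ r : P,
    homogeneousComponent 60 (r * h) = coeff 0 r • L c := by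
  obtain ⟨t, rfl⟩ := Ideal.mem_span_range_iff_exists_fun.1 hh
  refine ⟨fun i => coeff 0 (t i), fun r => ?_⟩
  rw [Finset.mul_sum, map_sum, L_apply, Finset.smul_sum]
  refine Finset.sum_congr rfl (fun i _ => ?_)
  rw [← mul_assoc, hc_Y, smul_smul]
  congr 1
  exact map_mul constantCoeff r (t i)

lemma fixed : ∀ (a c : Fin 5), a ≠ c → ∀ (e : ZMod 2) (x : Fin 6 → ZMod 2),
    (fun i => x (p a c i)) = e • x → ∑ i, x i = 0 := by
  decide +kernel

theorem result : ∃ (k : Type) (_ : Field k) (d : ℕ), 2 ≤ d ∧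
    ∃ J : Ideal (MvPolynomial (Fin d) k), IsPsi J ∧ IsPsi (J ^ 2) ∧
      ∀ f : MvPolynomial (Fin d) k, J = symIdeal f →
        ∀ τ : Perm (Fin d), τ.IsSwap → ∀ e : k, rename τ f ≠ e • f := by
  refine ⟨ZMod 2, inferInstance, 5, by norm_num, I, ⟨Y 0, 60, hom_Y 0, I_eq⟩,
    ⟨G 0 1, 120, ((hom_Y 0).mul (hom_Y 0)).add ((hom_Y 0).mul (hom_Y 1)), I_sq⟩, ?_⟩
  rintro f hf τ ⟨a, c, hac, rfl⟩ e he
  have hc1 : ∀ h ∈ I, ∀ r : P, homogeneousComponent 60 (r * h) =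
      coeff 0 r • homogeneousComponent 60 h := by
    intro h hh r
    obtain ⟨x, hx⟩ := hc_I h hh
    have := hx 1
    rw [one_mul, coeff_zero_one, one_smul] at this
    rw [hx, this]
  obtain ⟨x, hx⟩ := hc_I f (hf ▸ self_mem f)
  have hx1 := hx 1
  rw [one_mul, coeff_zero_one, one_smul] at hx1
  have hx2 : ∑ i, x i = 0 := by
    apply fixed a c hac e
    apply L_inj
    rw [← L_swap, ← hx1, rename_homogeneousComponent, he, map_smul, map_smul, hx1]
  have hW : ∀ s : Perm (Fin 5), ∃ z : Fin 6 → ZMod 2, ∑ i, z i = 0 ∧ rename s (L x) = L z := by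
    intro s
    induction s using Equiv.Perm.swap_induction_on with
    | one => exact ⟨x, hx2, by simp⟩
    | swap_mul g a' c' _ ih =>
      obtain ⟨z, hz, hz'⟩ := ih
      refine ⟨fun i => z (p a' c' i), ?_, by rw [rename_mul, hz', L_swap]⟩
      rw [← hz]
      exact Equiv.sum_comp (pe a' c') z
  have key : ∀ h ∈ symIdeal f, ∃ z : Fin 6 → ZMod 2, ∑ i, z i = 0 ∧
      homogeneousComponent 60 h = L z := by
    intro h hh
    unfold symIdeal at hh
    induction hh using Submodule.span_induction with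
    | mem y hy =>
      obtain ⟨s, rfl⟩ := hy
      simp only [← rename_homogeneousComponent, hx1]
      exact hW s
    | zero => exact ⟨0, by simp, by simp⟩
    | add y y' _ _ hy hy' =>
      obtain ⟨z, hz, hz'⟩ := hy
      obtain ⟨w, hw, hw'⟩ := hy'
      exact ⟨z + w, by simp [Finset.sum_add_distrib, hz, hw], by simp [hz', hw']⟩
    | smul r y hy ih =>
      obtain ⟨z, hz, hz'⟩ := ih
      refine ⟨coeff 0 r • z, by simp [← Finset.mul_sum, hz], ?_⟩
      rw [smul_eq_mul, hc1 y (by rw [hf]; exact hy), hz', map_smul]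
  obtain ⟨z, hz, hz'⟩ := key (Y 0) (hf ▸ Y_mem 0)
  rw [homogeneousComponent_eq_self (hom_Y 0)] at hz'
  have : L (Pi.single 0 1) = L z := by
    rw [← hz', L_apply]
    simp
  rw [← L_inj this] at hz
  revert hz
  decide

end Pool.Agent.Results.MP_e01960_al.No
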